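import Pool.Agent.Helper29.CutSystem

/-!
The partially ordered sets that order-embed into a free lattice are exactly those with a cut
system.
-/

universe u

open Pool.Agent.Helper29.FreeLat

theorem Pool.Agent.Results.MP_65a0e0_al.Characterization.result (P : Type u) [PartialOrder P] :
    List.TFAE [EmbedsInFreeLattice P, HasCutSystem P, EmbedsInFreeDistribLattice P,
      EmbedsInFreeBooleanAlgebra P] := by
  have h := embeds_tfae' P
  tfae_have 1 ↔ 3 := h.out 0 1
  tfae_have 1 ↔ 4 := h.out 0 2
  tfae_have 1 → 2 := by
    intro h1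
    have h2 : EmbedsInOnePointBuilt P := (h.out 0 4).1 h1
    exact h2.hasCutSystem
  tfae_have 2 → 1 := fun h1 => EmbedsInFreeLattice.of_fLat h1.embeds
  tfae_finish
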