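import Pool.Agent.Helper29.EmbDefs

/-!
Posets of size at most `ℵ₁` that order-embed into free lattices: cuts for pairs suffice.
-/

universe u

open Pool.Agent.Helper29.FreeLat

theorem Pool.Agent.Results.MP_65a0e0_al.SizeAlephOne.result (P : Type u) [PartialOrder P]
    (hP : Cardinal.mk P ≤ Cardinal.aleph 1) : EmbedsInFreeLattice P ↔ HasPairCutSystem P := by
  rw [← OneLevel.iff_pairCutSystem]
  constructor
  · intro h1
    have h2 : EmbedsInFN P := ((embeds_tfae P).out 0 3).1 h1
    exact h2.twoLevel.oneLevel
  · exact fun h1 => h1.embeds_of_aleph_one hP
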